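import Pool.Agent.CCurve.CPoly
import Pool.Agent.CCurve.FuncField

/-!
# A knot whose C-curve has positive genus

The knot is `8_3`, the double twist knot with two full twists in each twist region and the diagram
`Pool.Agent.CCurve.D83`.

* `coloredJones_D83` computes its coloured Jones function: the cyclotomic function is
  `k ↦ s_k(q) s_k(q⁻¹)` with `s_k(q) = ∑_j q^{j (j + 1)} (k choose j)_q`.
* `sk_rec` is the `q`-difference equation of `s_k`.
* `Biquad.rel_zero` shows that the four products of consecutive values of `s_k(q)` and `s_k(q⁻¹)`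
  satisfy no linear relation over `ℤ[q, Q]`, and `atOne_root` deduces that the C-polynomial
  vanishes at the product `ε` of the two characteristic roots.
* `genus_functionField` shows that the component of the C-curve through `(ε, Q)` has the non-zero
  regular differential `dQ / (u v)`, where `u² = Q² - 2 Q + 5` and `v² = 5 Q² - 2 Q + 1`.
-/

namespace Pool.Agent.Results.MP_4fdcc5_gt.CCurvePositiveGenus

open Polynomial Pool.Agent.CCurve

/-- the cyclotomic function of `8_3` -/
theorem isCyclotomic : IsCyclotomicFunction D83 0 ff := by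
  intro n hn
  exact coloredJones_D83 generic_aVar n hn

/-- the cyclotomic function is unique -/
theorem cyclotomic_unique {f : ℕ → 𝕂} (hf : IsCyclotomicFunction D83 0 f) : f = ff := by
  funext k
  induction k using Nat.strong_induction_on with
  | _ k ih =>
    have h1 := (hf (k + 1) (by omega)).symm.trans (isCyclotomic (k + 1) (by omega))
    rw [Finset.sum_range_succ, Finset.sum_range_succ] at h1
    have h2 : ∑ j ∈ Finset.range k, cyc aVar (k + 1) j * f j =
        ∑ j ∈ Finset.range k, cyc aVar (k + 1) j * ff j := by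
      apply Finset.sum_congr rfl
      intro j hj
      rw [ih j (Finset.mem_range.mp hj)]
    rw [h2] at h1
    have h3 : cyc aVar (k + 1) k ≠ 0 := by
      unfold cyc
      rw [Finset.prod_ne_zero_iff]
      intro i hi
      have hi' := Finset.mem_range.mp hi
      apply mul_ne_zero
      · apply generic_aVar.br_ne_zero
        push_cast
        omega
      · apply generic_aVar.br_ne_zero
        push_cast
        omega
    exact mul_left_cancel₀ h3 (add_left_cancel h1)

/-- There is a knot whose C-curve has an irreducible component of positive geometric genus. -/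
theorem result :
    ∃ (D : Diagram) (w : ℤ), IsKnotDiagram D w ∧
      (∃ f : ℕ → 𝕂, IsCyclotomicFunction D w f) ∧
      ∀ f : ℕ → 𝕂, IsCyclotomicFunction D w f →
        (∃ P : ℤ[X][X][X], IsCPolynomial f P) ∧
        ∀ P : ℤ[X][X][X], IsCPolynomial f P →
          atOne P ≠ 0 ∧
          ∃ F : ℂ[X][X], Irreducible F ∧ F ∣ atOne P ∧ geometricGenus (FunctionField F) ≠ 0 := by
  refine ⟨D83, 0, D83_isKnot, ⟨ff, isCyclotomic⟩, ?_⟩
  intro f hf
  rw [cyclotomic_unique hf]
  refine ⟨exists_cpoly, ?_⟩
  intro P hP
  refine ⟨hP.atOne_ne_zero, ?_⟩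
  obtain ⟨u, v, h⟩ := exists_biquad
  have h4 : phiQ (4 * X ^ 2) ≠ 0 := by
    intro h1
    have h2 : (4 * X ^ 2 : ℂ[X]) = 0 := h.inj (by rw [h1, map_zero])
    have h4' : (4 : ℂ[X]) ≠ 0 := by exact_mod_cast (four_ne_zero : (4 : ℕ) ≠ 0)
    exact mul_ne_zero h4' (pow_ne_zero 2 X_ne_zero) h2
  have hε : phiQ (4 * X ^ 2) * (gp phiQ u * gr phiQ v / phiQ (4 * X ^ 2)) = gp phiQ u * gr phiQ v := by
    field_simp
  have hroot := atOne_root h hε hP.annihilates
  obtain ⟨F, hF1, hF2, hF3⟩ := exists_factor (atOne P) hP.atOne_ne_zero phiQ _ hroot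
  exact ⟨F, hF1, hF2, genus_functionField h hε hF1 hF3⟩

end Pool.Agent.Results.MP_4fdcc5_gt.CCurvePositiveGenus
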